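import Pool.Agent.W610.HY.Stm4

/-! Project HY: if the integral vanishes, every point inside is in the local resolvent set. -/

set_option autoImplicit false

namespace Pool.Agent.W22.HY.NZ2

open Pool.Agent.W610.HY
open MeasureTheory Set Metric Filter Topology

/-- the measure on the circle -/
noncomputable abbrev mu : Measure ℝ := volume.restrict (Ioc (0:ℝ) (2 * Real.pi))

theorem dist_ge {c : ℂ} {r : ℝ} (hr : 0 < r) (w : ℂ) (θ : ℝ) :
    r - ‖w - c‖ ≤ ‖circleMap c r θ - w‖ := by
  have h1 : ‖circleMap c r θ - c‖ = r := by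
    rw [circleMap_sub_center, norm_circleMap_zero, abs_of_pos hr]
  have h2 : ‖circleMap c r θ - c‖ ≤ ‖circleMap c r θ - w‖ + ‖w - c‖ := by
    have := norm_add_le (circleMap c r θ - w) (w - c)
    rwa [sub_add_sub_cancel] at this
  linarith

theorem ne_pt {c : ℂ} {r : ℝ} (hr : 0 < r) {w : ℂ} (hw : ‖w - c‖ < r) (θ : ℝ) :
    circleMap c r θ - w ≠ 0 := by
  have := dist_ge (c := c) hr w θ
  intro h
  rw [h, norm_zero] at this
  linarith

theorem meas_inv (c : ℂ) (r : ℝ) (w : ℂ) :
    Measurable (fun θ => (circleMap c r θ - w)⁻¹) :=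
  ((continuous_circleMap c r).measurable.sub_const w).inv

theorem integ {E : Type} [NormedAddCommGroup E] [NormedSpace ℂ E] {c : ℂ} {r : ℝ} (hr : 0 < r)
    {k : ℝ → E} (hk : AEStronglyMeasurable k mu) (hb : ∀ᵐ θ ∂mu, ‖k θ‖ ≤ 1) {w : ℂ}
    (hw : ‖w - c‖ < r) : Integrable (fun θ => (circleMap c r θ - w)⁻¹ • k θ) mu := by
  refine Integrable.of_bound (C := (r - ‖w - c‖)⁻¹) ?_ ?_
  · exact (meas_inv c r w).aestronglyMeasurable.smul hk
  · filter_upwards [hb] with θ hθ
    have h0 : 0 < r - ‖w - c‖ := by linarith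
    have h1 := dist_ge (c := c) hr w θ
    rw [norm_smul, norm_inv]
    calc ‖circleMap c r θ - w‖⁻¹ * ‖k θ‖ ≤ (r - ‖w - c‖)⁻¹ * 1 :=
          mul_le_mul (inv_anti₀ h0 h1) hθ (norm_nonneg _) (inv_nonneg.2 h0.le)
      _ = _ := mul_one _

theorem diff {E : Type} [NormedAddCommGroup E] [NormedSpace ℂ E] [CompleteSpace E]
    {c : ℂ} {r : ℝ} (hr : 0 < r)
    {k : ℝ → E} (hk : AEStronglyMeasurable k mu) (hb : ∀ᵐ θ ∂mu, ‖k θ‖ ≤ 1) {w : ℂ}
    (hw : ‖w - c‖ < r) :
    DifferentiableAt ℂ (fun w => ∫ θ, (circleMap c r θ - w)⁻¹ • k θ ∂mu) w := by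
  set s : ℝ := (r - ‖w - c‖) / 2 with hs
  have hs0 : 0 < s := by rw [hs]; linarith
  have hball : ∀ v ∈ ball w s, s ≤ r - ‖v - c‖ := by
    intro v hv
    rw [mem_ball, dist_eq_norm] at hv
    have : ‖v - c‖ ≤ ‖v - w‖ + ‖w - c‖ := by
      have := norm_add_le (v - w) (w - c)
      rwa [sub_add_sub_cancel] at this
    have h2 : 2 * s = r - ‖w - c‖ := by rw [hs]; ring
    linarith
  have key := hasDerivAt_integral_of_dominated_loc_of_deriv_le (μ := mu) (𝕜 := ℂ)
    (F := fun w θ => (circleMap c r θ - w)⁻¹ • k θ)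
    (F' := fun w θ => (((circleMap c r θ - w) ^ 2)⁻¹ : ℂ) • k θ) (x₀ := w) (s := ball w s)
    (bound := fun _ => (s ^ 2)⁻¹) (ball_mem_nhds w hs0) ?_ ?_ ?_ ?_ ?_ ?_
  · exact key.2.differentiableAt
  · exact Eventually.of_forall fun v => (meas_inv c r v).aestronglyMeasurable.smul hk
  · exact integ hr hk hb hw
  · exact ((((continuous_circleMap c r).measurable.sub_const w).pow_const 2).inv
      ).aestronglyMeasurable.smul hk
  · filter_upwards [hb] with θ hθ v hv
    have h1 := (hball v hv).trans (dist_ge (c := c) hr v θ)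
    rw [norm_smul, norm_inv, norm_pow]
    calc (‖circleMap c r θ - v‖ ^ 2)⁻¹ * ‖k θ‖ ≤ (s ^ 2)⁻¹ * 1 :=
          mul_le_mul (inv_anti₀ (by positivity) (pow_le_pow_left₀ hs0.le h1 2)) hθ
            (norm_nonneg _) (by positivity)
      _ = _ := mul_one _
  · exact integrable_const _
  · refine Eventually.of_forall fun θ v hv => ?_
    have hne : circleMap c r θ - v ≠ 0 := ne_pt hr (by
      have := hball v hv
      linarith) θ
    have h1 : HasDerivAt (fun v : ℂ => circleMap c r θ - v) (-1) v := by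
      simpa using (hasDerivAt_id v).const_sub (circleMap c r θ)
    have h2 := (h1.inv hne).smul_const (k θ)
    have h3 : (-(-1 : ℂ) / (circleMap c r θ - v) ^ 2) = ((circleMap c r θ - v) ^ 2)⁻¹ := by
      rw [neg_neg, one_div]
    rw [h3] at h2
    exact h2

theorem main : NZ2 := by
  intro E _ _ _ T x P f c r h hf hP hg hIV a ha
  obtain ⟨hgood, hne⟩ := hg
  have hr := hgood.pos
  have hpi : (0:ℝ) ≤ 2 * Real.pi := by positivity
  have hu : ∀ θ, ‖circleMap 0 1 θ‖ = 1 := fun θ => by
    rw [norm_circleMap_zero, abs_one]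
  -- the scalar multiplier
  set k₀ : ℝ → ℂ := fun θ => h θ * circleMap 0 1 θ with hk₀
  set k : ℝ → E := fun θ => (h θ * circleMap 0 1 θ) • f (circleMap c r θ) with hk
  have mk₀ : AEStronglyMeasurable k₀ mu :=
    (hgood.meas.mul (continuous_circleMap 0 1).measurable).aestronglyMeasurable
  have mk : AEStronglyMeasurable k mu :=
    mk₀.smul (hf.comp_measurable (continuous_circleMap c r).measurable).aestronglyMeasurable
  have bk₀ : ∀ᵐ θ ∂mu, ‖k₀ θ‖ ≤ 1 := by
    filter_upwards [hgood.le_one] with θ hθ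
    rw [hk₀]
    simp only [norm_mul, hu, mul_one]
    exact hθ
  have bk : ∀ᵐ θ ∂mu, ‖k θ‖ ≤ 1 := by
    filter_upwards [hgood.bound] with θ hθ
    rw [hk]
    simp only [norm_smul, norm_mul, hu, mul_one]
    exact hθ
  have ik : Integrable k mu := Integrable.of_bound mk 1 bk
  have hI0 : ∫ θ, k θ ∂mu = 0 := by
    rw [← hIV, IV, intervalIntegral.integral_of_le hpi]
  set I : ℂ → ℂ := fun w => ∫ θ, (circleMap c r θ - w)⁻¹ • k₀ θ ∂mu with hI
  set Φ : ℂ → E := fun w => ∫ θ, (circleMap c r θ - w)⁻¹ • k θ ∂mu with hΦ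
  have hIne : ∀ w, ‖w - c‖ < r → I w ≠ 0 := by
    intro w hw h0
    apply hne w hw
    refine Eq.trans ?_ h0
    rw [intervalIntegral.integral_of_le hpi]
    show _ = ∫ θ, (circleMap c r θ - w)⁻¹ • k₀ θ ∂mu
    refine integral_congr_ae (Eventually.of_forall fun θ => ?_)
    simp only [hk₀, smul_eq_mul]
    rw [div_eq_mul_inv]
    ring
  have hmain : ∀ w, ‖w - c‖ < r → w • Φ w - T (Φ w) = I w • x := by
    intro w hw
    have i1 := integ (c := c) hr mk bk hw
    have i2 := integ (c := c) hr mk₀ bk₀ hw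
    have e1 : T (Φ w) = ∫ θ, T ((circleMap c r θ - w)⁻¹ • k θ) ∂mu :=
      (T.integral_comp_comm i1).symm
    have e2 : w • Φ w = ∫ θ, w • ((circleMap c r θ - w)⁻¹ • k θ) ∂mu :=
      (integral_smul w _).symm
    have e3 : I w • x = ∫ θ, ((circleMap c r θ - w)⁻¹ • k₀ θ) • x ∂mu :=
      (integral_smul_const _ x).symm
    have e4 : w • Φ w - T (Φ w) + ∫ θ, k θ ∂mu =
        ∫ θ, ((circleMap c r θ - w)⁻¹ • k₀ θ) • x ∂mu := by
      have j1 : Integrable (fun θ => w • ((circleMap c r θ - w)⁻¹ • k θ)) mu := i1.smul w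
      have j2 : Integrable (fun θ => T ((circleMap c r θ - w)⁻¹ • k θ)) mu :=
        T.integrable_comp i1
      have j3 : Integrable (fun θ => w • ((circleMap c r θ - w)⁻¹ • k θ) -
        T ((circleMap c r θ - w)⁻¹ • k θ)) mu := j1.sub j2
      rw [e1, e2, ← integral_sub j1 j2, ← integral_add j3 ik]
      refine integral_congr_ae ?_
      filter_upwards [hgood.res] with θ hθ
      have hz := hP _ hθ
      have hne' := ne_pt (c := c) hr hw θ
      have hT : T (f (circleMap c r θ)) = circleMap c r θ • f (circleMap c r θ) - x := by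
        rw [← hz]; abel
      simp only [hk, hk₀, map_smul, hT, smul_sub, smul_smul, smul_eq_mul]
      set z := circleMap c r θ with hzdef
      set g := h θ * circleMap 0 1 θ with hg
      have h5 : g = (z - w)⁻¹ * ((z - w) * g) := by
        rw [← mul_assoc, inv_mul_cancel₀ hne', one_mul]
      have h6 : (w * ((z - w)⁻¹ * g)) • f z - ((((z - w)⁻¹ * g) * z) • f z -
          ((z - w)⁻¹ * g) • x) + g • f z = ((z - w)⁻¹ * g) • x := by
        have h7 : (w * ((z - w)⁻¹ * g)) • f z - (((z - w)⁻¹ * g) * z) • f z + g • f z = 0 := by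
          rw [← sub_smul, ← add_smul]
          have : w * ((z - w)⁻¹ * g) - (z - w)⁻¹ * g * z + g = 0 := by
            field_simp
            ring
          rw [this, zero_smul]
        calc _ = ((w * ((z - w)⁻¹ * g)) • f z - (((z - w)⁻¹ * g) * z) • f z + g • f z) +
              ((z - w)⁻¹ * g) • x := by abel
          _ = _ := by rw [h7, zero_add]
      convert h6 using 3
    rw [hI0, add_zero] at e4
    rw [e4, e3]
  refine ⟨r - ‖a - c‖, fun w => (I w)⁻¹ • Φ w, by linarith, ?_, ?_⟩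
  · intro w hw
    have hw' : ‖w - c‖ < r := by
      rw [mem_ball, dist_eq_norm] at hw
      have := norm_add_le (w - a) (a - c)
      rw [sub_add_sub_cancel] at this
      linarith
    exact (((diff hr mk₀ bk₀ hw').inv (hIne w hw')).smul (diff hr mk bk hw')
      ).differentiableWithinAt
  · intro w hw
    have hw' : ‖w - c‖ < r := by
      rw [mem_ball, dist_eq_norm] at hw
      have := norm_add_le (w - a) (a - c)
      rw [sub_add_sub_cancel] at this
      linarith
    simp only
    rw [map_smul, smul_comm, ← smul_sub, hmain w hw', smul_smul, inv_mul_cancel₀ (hIne w hw'),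
      one_smul]

end Pool.Agent.W22.HY.NZ2
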